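import Mathlib

/-!
Two families of involutions indexed by `ZMod p`: the combinatorial core.
-/

namespace Pool.Agent.V7H15.Inv

variable {G : Type*} [Group G]

/-- `pr V k = V k * ... * V 1` -/
def pr {p : ℕ} (V : ZMod p → G) : ℕ → G
  | 0 => 1
  | k + 1 => V ((k + 1 : ℕ) : ZMod p) * pr V k

/-- `pt T k = T (k - 1) * ... * T 0` -/
def pt {p : ℕ} (T : ZMod p → G) : ℕ → G
  | 0 => 1
  | k + 1 => T (k : ZMod p) * pt T k

theorem inv_self {x : G} (h : x * x = 1) : x⁻¹ = x := inv_eq_of_mul_eq_one_left h

theorem cancel_l {x : G} (h : x * x = 1) (y : G) : x * (x * y) = y := by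
  rw [← mul_assoc, h, one_mul]

theorem cast_ne_zero {p k : ℕ} (h0 : 0 < k) (hk : k < p) : ((k : ℕ) : ZMod p) ≠ 0 := by
  intro h
  have h1 := (ZMod.natCast_eq_zero_iff k p).1 h
  exact absurd (Nat.le_of_dvd h0 h1) (by omega)

/-- the basic relation -/
theorem swap4 {x y z w : G} (hx : x * x = 1) (hy : y * y = 1) (hz : z * z = 1) (hw : w * w = 1)
    (h : (x * y * z * w) * (x * y * z * w) = 1) : x * (w * z * y) * x⁻¹ = y * z * w := by
  have h1 := inv_self h
  simp only [mul_inv_rev, inv_self hx, inv_self hy, inv_self hz, inv_self hw] at h1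
  rw [inv_self hx]
  have h2 : x * (w * z * y) * x = x * (w * (z * (y * x))) := by group
  rw [h2, h1]
  have h3 : x * (x * y * z * w) = x * (x * (y * z * w)) := by group
  rw [h3, cancel_l hx]

theorem core {p : ℕ} (hp : Odd p) (hp1 : 1 < p) (V T : ZMod p → G)
    (hV : ∀ z, V z * V z = 1) (hT : ∀ z, T z * T z = 1)
    (nV : ∀ l, pr (fun z => V (l + z)) (p - 1) = V l) (nT : pt T p = 1)
    (R0 : ∀ j l i k, j ≠ l → i ≠ k → (V j * T i * V l * T k) * (V j * T i * V l * T k) = 1)
    (l i : ZMod p) : V l * T i = T i * V l := by
  have hp3 : 3 ≤ p := by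
    obtain ⟨m, hm⟩ := hp
    omega
  -- conjugation by the product of the first `m` elements
  have conj : ∀ i k, i ≠ k → ∀ m : ℕ, m < p →
      pr (fun z => V (l + z)) m * (T k * V l * T i) * (pr (fun z => V (l + z)) m)⁻¹ =
        if Even m then T k * V l * T i else T i * V l * T k := by
    intro i k hik m
    induction m with
    | zero => intro _; simp [pr]
    | succ m ih =>
      intro hm
      have ih' := ih (by omega)
      have hj : l + ((m + 1 : ℕ) : ZMod p) ≠ l := by
        intro h
        exact cast_ne_zero (p := p) (k := m + 1) (by omega) hm (add_eq_left.1 h)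
      have e : pr (fun z => V (l + z)) (m + 1) * (T k * V l * T i) *
          (pr (fun z => V (l + z)) (m + 1))⁻¹ = V (l + ((m + 1 : ℕ) : ZMod p)) *
          (pr (fun z => V (l + z)) m * (T k * V l * T i) * (pr (fun z => V (l + z)) m)⁻¹) *
          (V (l + ((m + 1 : ℕ) : ZMod p)))⁻¹ := by
        simp only [pr]
        group
      rw [e, ih']
      by_cases hme : Even m
      · have h1 : ¬ Even (m + 1) := by
          rw [Nat.even_add_one]; exact fun h => h hme
        rw [if_pos hme, if_neg h1]
        exact swap4 (hV _) (hT _) (hV _) (hT _) (R0 _ _ _ _ hj hik)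
      · have h1 : Even (m + 1) := Nat.even_add_one.2 hme
        rw [if_neg hme, if_pos h1]
        exact swap4 (hV _) (hT _) (hV _) (hT _) (R0 _ _ _ _ hj hik.symm)
  have R2 : ∀ i k, i ≠ k → V l * (T k * V l * T i) * V l = T k * V l * T i := by
    intro i k hik
    have h := conj i k hik (p - 1) (by omega)
    have he : Even (p - 1) := by
      obtain ⟨m, hm⟩ := hp
      exact ⟨m, by omega⟩
    rw [nV l, if_pos he, inv_self (hV l)] at h
    exact h
  -- the commutators
  let c : ZMod p → G := fun k => T k * V l * T k * V l
  have cc : ∀ i k, i ≠ k → c k * c i = 1 := by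
    intro i k hik
    have h := R2 i k hik
    have h1 : V l * T k * V l * T i * V l = T k * V l * T i := by
      rw [← h]; group
    have h2 : T k * V l * T k * V l = V l * T i * V l * T i := by
      have h3 : T k * (V l * T k * V l * T i * V l) = V l * T i := by
        rw [h1, mul_assoc, cancel_l (hT k)]
      have h4 : T k * V l * T k * V l = T k * (V l * T k * V l * T i * V l) * (V l * T i) := by
        have h5 : T k * (V l * T k * V l * T i * V l) * (V l * T i) =
            T k * V l * T k * V l * (T i * ((V l * V l) * T i)) := by group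
        rw [h5, hV, one_mul, hT, mul_one]
      rw [h4, h3]
      group
    show T k * V l * T k * V l * (T i * V l * T i * V l) = 1
    rw [h2]
    have h6 : V l * T i * V l * T i * (T i * V l * T i * V l) =
        V l * (T i * (V l * ((T i * T i) * (V l * (T i * V l))))) := by group
    rw [h6, hT, one_mul, cancel_l (hV l), cancel_l (hT i), hV]
  have sq : ∀ i, c i * c i = 1 ∧ ∀ k, c k = c i := by
    intro i
    have h1 : ∃ k m : ZMod p, k ≠ i ∧ m ≠ i ∧ m ≠ k := by
      refine ⟨i + ((1 : ℕ) : ZMod p), i + ((2 : ℕ) : ZMod p), ?_, ?_, ?_⟩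
      · intro h
        exact cast_ne_zero (p := p) (k := 1) (by omega) (by omega) (add_eq_left.1 h)
      · intro h
        exact cast_ne_zero (p := p) (k := 2) (by omega) (by omega) (add_eq_left.1 h)
      · intro h
        have h2 := add_left_cancel h
        apply cast_ne_zero (p := p) (k := 1) (by omega) (by omega)
        have h3 : ((2 : ℕ) : ZMod p) = ((1 : ℕ) : ZMod p) + ((1 : ℕ) : ZMod p) := by
          push_cast; norm_num
        rw [h3] at h2
        exact add_eq_left.1 h2
    obtain ⟨k, m, hk, hm, hkm⟩ := h1
    have a1 := cc i k hk.symm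
    have a2 := cc i m hm.symm
    have a3 := cc k m hkm.symm
    have b1 : c k = c m := by
      rw [eq_inv_of_mul_eq_one_left a1, eq_inv_of_mul_eq_one_left a2]
    have b2 : c k = c i := by
      rw [eq_inv_of_mul_eq_one_left (cc k i hk), ← eq_inv_of_mul_eq_one_left (b1 ▸ a3 : c k * c k = 1)]
    refine ⟨by rw [← b2]; exact (b1 ▸ a3 : c k * c k = 1), fun k' => ?_⟩
    by_cases hk' : k' = i
    · rw [hk']
    · have h4 := cc i k' (fun h => hk' h.symm)
      rw [eq_inv_of_mul_eq_one_left h4]
      have h5 : c i * c i = 1 := by rw [← b2]; exact (b1 ▸ a3 : c k * c k = 1)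
      exact inv_self h5
  have hc := (sq i).1
  have hcc := (sq i).2
  set d := c i with hd
  have conjT : ∀ k, V l * T k * V l = T k * d := by
    intro k
    rw [← hcc k]
    show _ = T k * (T k * V l * T k * V l)
    have : T k * (T k * V l * T k * V l) = T k * (T k * (V l * T k * V l)) := by group
    rw [this, cancel_l (hT k)]
  have comT : ∀ k, d * T k = T k * d := by
    intro k
    have h1 : d = T k * V l * T k * V l := (hcc k).symm
    have h2 : d⁻¹ = V l * T k * V l * T k := by
      rw [h1]
      simp only [mul_inv_rev, inv_self (hV _), inv_self (hT _)]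
      group
    have h3 : d = V l * T k * V l * T k := by rw [← h2]; exact (inv_self hc).symm
    calc d * T k = V l * T k * V l * T k * T k := by rw [← h3]
      _ = V l * T k * V l * (T k * T k) := by group
      _ = V l * T k * V l := by rw [hT, mul_one]
      _ = T k * d := conjT k
  have conjP : ∀ m : ℕ, V l * pt T m * V l = pt T m * d ^ m ∧ d * pt T m = pt T m * d := by
    intro m
    induction m with
    | zero => simp [pt, hV]
    | succ m ih =>
      refine ⟨?_, ?_⟩
      · show V l * (T m * pt T m) * V l = T m * pt T m * d ^ (m + 1)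
        have h1 : V l * (T m * pt T m) * V l = (V l * T m * V l) * (V l * pt T m * V l) := by
          have h2 : (V l * T m * V l) * (V l * pt T m * V l) =
              V l * T m * ((V l * V l) * (pt T m * V l)) := by group
          rw [h2, hV, one_mul]
          group
        rw [h1, conjT, ih.1]
        have h3 : T (m : ZMod p) * d * (pt T m * d ^ m) = T m * (d * pt T m) * d ^ m := by group
        rw [h3, ih.2, pow_succ']
        group
      · show d * (T m * pt T m) = T m * pt T m * d
        rw [← mul_assoc, comT, mul_assoc, ih.2, ← mul_assoc]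
  have hd1 : d = 1 := by
    have h1 := (conjP p).1
    rw [nT, mul_one, hV, one_mul] at h1
    obtain ⟨m, hm⟩ := hp
    rw [hm, pow_succ, pow_mul, pow_two, hc, one_pow, one_mul] at h1
    exact h1.symm
  have h := conjT i
  rw [hd1, mul_one] at h
  calc V l * T i = V l * T i * (V l * V l) := by rw [hV, mul_one]
    _ = V l * T i * V l * V l := by group
    _ = T i * V l := by rw [h]

end Pool.Agent.V7H15.Inv
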