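import Pool.Agent.V7H15.Inv.Core

/-!
The involutions `u` such that `a u` lies in a given class of elements of order `p`.
-/

namespace Pool.Agent.V7H15.Inv

variable {G : Type*} [Group G]

/-- `g⁻¹ x g` -/
def cj (g x : G) : G := g⁻¹ * x * g

theorem cj_mul (g x y : G) : cj g (x * y) = cj g x * cj g y := by unfold cj; group

theorem cj_cj (g h x : G) : cj h (cj g x) = cj (g * h) x := by unfold cj; group

theorem cj_one (g : G) : cj g (1 : G) = 1 := by unfold cj; group

theorem one_cj (x : G) : cj (1 : G) x = x := by unfold cj; group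

theorem cj_inv (g x : G) : cj g x⁻¹ = (cj g x)⁻¹ := by unfold cj; group

theorem cj_pow (g x : G) (n : ℕ) : cj g (x ^ n) = cj g x ^ n := by
  unfold cj
  have : g⁻¹ * x * g = MulAut.conj g⁻¹ x := by simp
  rw [this, ← map_pow]; simp

/-- `D` is closed under conjugation and powers, its elements have order dividing `p`, and the
commutators of its elements have order at most two -/
structure Law (D : Set G) (p : ℕ) : Prop where
  conj : ∀ y ∈ D, ∀ g : G, cj g y ∈ D
  pow : ∀ y ∈ D, ∀ k : ℕ, y ^ k ∈ D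
  exp : ∀ y ∈ D, y ^ p = 1
  comm : ∀ y ∈ D, ∀ z ∈ D, (y⁻¹ * z⁻¹ * y * z) * (y⁻¹ * z⁻¹ * y * z) = 1

/-- the involutions `u` with `a u` in `D` -/
def E (D : Set G) (a : G) : Set G := {u | u * u = 1 ∧ a * u ∈ D}

/-- the conjugates of `u` under the powers of `a` -/
def VV (p : ℕ) (a u : G) (z : ZMod p) : G := cj (a ^ z.val) u

theorem VV_cast {p : ℕ} {a : G} (ha : a ^ p = 1) (u : G) (k : ℕ) :
    cj (a ^ k) u = VV p a u (k : ZMod p) := by
  unfold VV
  rw [ZMod.val_natCast, ← pow_eq_pow_mod k ha]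

theorem VV_shift {p : ℕ} [NeZero p] {a : G} (ha : a ^ p = 1) (u : G) (k : ℕ) (z : ZMod p) :
    cj (a ^ k) (VV p a u z) = VV p a u (z + k) := by
  have h1 : z + (k : ZMod p) = ((z.val + k : ℕ) : ZMod p) := by
    rw [Nat.cast_add, ZMod.natCast_val, ZMod.cast_id]
  rw [h1, ← VV_cast ha]
  unfold VV
  rw [cj_cj, pow_add]

theorem VV_zero {p : ℕ} (a u : G) [NeZero p] : VV p a u 0 = u := by
  unfold VV
  rw [ZMod.val_zero, pow_zero, one_cj]

theorem VV_sq {p : ℕ} {a u : G} (hu : u * u = 1) (z : ZMod p) : VV p a u z * VV p a u z = 1 := by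
  unfold VV
  rw [← cj_mul, hu, cj_one]

theorem comm_of_sq {s t : G} (hs : s * s = 1) (ht : t * t = 1) (h : s * t * (s * t) = 1) :
    s * t = t * s := by
  have h1 := inv_self h
  rw [mul_inv_rev, inv_self hs, inv_self ht] at h1
  exact h1.symm

variable {D : Set G} {p : ℕ}

theorem Law.comm_conj (L : Law D p) {a u : G} (ha : a ∈ D) (hu : u ∈ E D a) (i : ℕ) :
    cj (a ^ i) u * u = u * cj (a ^ i) u := by
  have h := L.comm _ (L.pow a ha i) _ hu.2
  have e : (a ^ i)⁻¹ * (a * u)⁻¹ * a ^ i * (a * u) = cj (a ^ i) u * u := by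
    unfold cj
    rw [mul_inv_rev, inv_self hu.1]
    have h1 : a⁻¹ * (a ^ i * a) = a ^ i := by
      rw [← pow_succ, pow_succ', ← mul_assoc, inv_mul_cancel, one_mul]
    calc (a ^ i)⁻¹ * (u * a⁻¹) * a ^ i * (a * u) = (a ^ i)⁻¹ * u * (a⁻¹ * (a ^ i * a)) * u := by
          group
      _ = _ := by rw [h1]
  rw [e] at h
  refine comm_of_sq ?_ hu.1 h
  rw [← cj_mul, hu.1, cj_one]

theorem Law.E_cj (L : Law D p) {a u g : G} (hu : u ∈ E D a) : cj g u ∈ E D (cj g a) := by
  refine ⟨by rw [← cj_mul, hu.1, cj_one], ?_⟩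
  rw [← cj_mul]
  exact L.conj _ hu.2 g

theorem cj_self_pow (a : G) (k : ℕ) : cj (a ^ k) a = a := by
  unfold cj
  have h : a * a ^ k = a ^ k * a := by rw [← pow_succ, ← pow_succ']
  rw [mul_assoc, h, ← mul_assoc, inv_mul_cancel, one_mul]

theorem Law.VV_mem (L : Law D p) {a u : G} (hu : u ∈ E D a) (z : ZMod p) :
    VV p a u z ∈ E D a := by
  have h := L.E_cj (g := a ^ z.val) hu
  rwa [cj_self_pow] at h

theorem Law.VV_comm (L : Law D p) [NeZero p] {a u : G} (ha : a ∈ D) (hu : u ∈ E D a)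
    (z z' : ZMod p) : VV p a u z * VV p a u z' = VV p a u z' * VV p a u z := by
  have h1 : VV p a u z = cj (a ^ z'.val) (VV p a u (z - z')) := by
    rw [VV_shift (L.exp a ha), ZMod.natCast_val, ZMod.cast_id, sub_add_cancel]
  have h2 : VV p a u z' = cj (a ^ z'.val) u := rfl
  rw [h1, h2, ← cj_mul, ← cj_mul]
  congr 1
  exact L.comm_conj ha hu _

theorem mul_pow_pt {a u : G} (ha : a ^ p = 1) (k : ℕ) :
    (a * u) ^ k = a ^ k * pt (VV p a u) k := by
  induction k with
  | zero => simp [pt]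
  | succ k ih =>
    rw [pow_succ', ih, pow_succ']
    show _ = a * a ^ k * (VV p a u (k : ZMod p) * pt (VV p a u) k)
    rw [← VV_cast ha]
    unfold cj
    group

theorem Law.pt_eq (L : Law D p) {a u : G} (ha : a ∈ D) (hu : u ∈ E D a) :
    pt (VV p a u) p = 1 := by
  have h := mul_pow_pt (u := u) (L.exp a ha) p
  rw [L.exp _ hu.2, L.exp a ha, one_mul] at h
  exact h.symm

theorem pr_pt (W : ZMod p → G) (k : ℕ) : pr W k * W 0 = pt W (k + 1) := by
  induction k with
  | zero => simp [pr, pt]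
  | succ k ih =>
    show W ((k + 1 : ℕ) : ZMod p) * pr W k * W 0 = W ((k + 1 : ℕ) : ZMod p) * pt W (k + 1)
    rw [mul_assoc, ih]

theorem Law.pr_eq (L : Law D p) [NeZero p] {a u : G} (ha : a ∈ D) (hu : u ∈ E D a) (l : ZMod p) :
    pr (fun z => VV p a u (l + z)) (p - 1) = VV p a u l := by
  have h1 := L.pt_eq ha (L.VV_mem hu l)
  have h2 : VV p a (VV p a u l) = fun z => VV p a u (l + z) := by
    funext z
    show cj (a ^ z.val) (VV p a u l) = _
    rw [VV_shift (L.exp a ha), ZMod.natCast_val, ZMod.cast_id]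
  rw [h2] at h1
  have hp : p - 1 + 1 = p := Nat.succ_pred_eq_of_pos (Nat.pos_of_ne_zero (NeZero.ne p))
  have h3 := pr_pt (fun z => VV p a u (l + z)) (p - 1)
  rw [hp, h1, add_zero] at h3
  rw [eq_inv_of_mul_eq_one_left h3, inv_self (VV_sq hu.1 l)]

/-! ### `a ^ i u` is in `D` -/

theorem prod_cast {A : Type*} [CommMonoid A] [NeZero p] (f : ZMod p → A) :
    ∏ k ∈ Finset.range p, f (k : ZMod p) = ∏ z, f z := by
  refine Finset.prod_bij (fun k _ => (k : ZMod p)) (fun _ _ => Finset.mem_univ _) ?_ ?_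
    (fun _ _ => rfl)
  · intro a ha b hb h
    have h1 := (ZMod.natCast_eq_natCast_iff' a b p).1 h
    rwa [Nat.mod_eq_of_lt (Finset.mem_range.1 ha), Nat.mod_eq_of_lt (Finset.mem_range.1 hb)] at h1
  · intro z _
    exact ⟨z.val, Finset.mem_range.2 (ZMod.val_lt z), by rw [ZMod.natCast_val, ZMod.cast_id]⟩

theorem prod_pairs {A : Type*} [CommMonoid A] (f : ZMod p → A) (i : ZMod p) (h : ℕ) :
    (∏ s ∈ Finset.range h, f ((2 * s + 1 : ℕ) * i + i)) *
      ∏ s ∈ Finset.range h, f ((2 * s + 1 : ℕ) * i) =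
      ∏ k ∈ Finset.range (2 * h), f (((k + 1 : ℕ) : ZMod p) * i) := by
  induction h with
  | zero => simp
  | succ h ih =>
    have e1 : 2 * (h + 1) = 2 * h + 1 + 1 := by ring
    rw [e1, Finset.prod_range_succ _ (2 * h + 1), Finset.prod_range_succ _ (2 * h), ← ih,
      Finset.prod_range_succ _ h, Finset.prod_range_succ _ h]
    have e2 : ((2 * h + 1 : ℕ) : ZMod p) * i + i = ((2 * h + 1 + 1 : ℕ) : ZMod p) * i := by
      push_cast; ring
    rw [e2]
    ac_rfl

theorem exists_conj [Fact p.Prime] (hp2 : p ≠ 2) (L : Law D p) {a u : G} (ha : a ∈ D)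
    (hu : u ∈ E D a) {i : ℕ} (hi : ((i : ℕ) : ZMod p) ≠ 0) :
    ∃ v ∈ Subgroup.closure (Set.range (VV p a u)), cj v (a ^ i) = a ^ i * u := by
  classical
  have hcomm : ∀ x ∈ Set.range (VV p a u), ∀ y ∈ Set.range (VV p a u), x * y = y * x := by
    rintro _ ⟨z, rfl⟩ _ ⟨z', rfl⟩
    exact L.VV_comm ha hu z z'
  have hMC := Subgroup.isMulCommutative_closure hcomm
  let CG : CommGroup (Subgroup.closure (Set.range (VV p a u))) :=
    { (inferInstance : Group (Subgroup.closure (Set.range (VV p a u)))) with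
      mul_comm := fun x y => hMC.is_comm.comm x y }
  let v : ZMod p → Subgroup.closure (Set.range (VV p a u)) := fun z =>
    ⟨VV p a u z, Subgroup.subset_closure ⟨z, rfl⟩⟩
  have hv : ∀ z, v z * v z = 1 := fun z => Subtype.ext (VV_sq hu.1 z)
  have htot : ∀ m, ((∏ k ∈ Finset.range m, v (k : ZMod p) :
      Subgroup.closure (Set.range (VV p a u))) : G) = pt (VV p a u) m := by
    intro m
    induction m with
    | zero => simp [pt]
    | succ m ih =>
      rw [Finset.prod_range_succ, mul_comm]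
      show VV p a u (m : ZMod p) * _ = VV p a u (m : ZMod p) * pt (VV p a u) m
      rw [← ih]
  have hone : ∏ z, v z = 1 := by
    rw [← prod_cast]
    exact Subtype.ext (by rw [htot]; exact L.pt_eq ha hu)
  have hmul : ∏ z, v (z * (i : ZMod p)) = 1 := by
    rw [← hone]
    exact Fintype.prod_bijective (fun z => z * (i : ZMod p)) (mulRight_bijective₀ _ hi) _ _
      (fun _ => rfl)
  obtain ⟨h, hh⟩ : Odd p := (Fact.out : p.Prime).odd_of_ne_two hp2
  have hprod : (∏ k ∈ Finset.range (2 * h), v (((k + 1 : ℕ) : ZMod p) * i)) = v 0 := by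
    have h1 := hmul
    rw [← prod_cast (fun z => v (z * (i : ZMod p)))] at h1
    have h2 : Finset.range p = Finset.range (2 * h + 1) := by rw [← hh]
    rw [h2, Finset.prod_range_succ'] at h1
    rw [Nat.cast_zero, zero_mul] at h1
    rw [eq_inv_of_mul_eq_one_left h1, inv_self (hv 0)]
  let w : Subgroup.closure (Set.range (VV p a u)) :=
    ∏ s ∈ Finset.range h, v ((2 * s + 1 : ℕ) * (i : ZMod p))
  have hw2 : w * w = 1 := by
    show (∏ s ∈ Finset.range h, _) * (∏ s ∈ Finset.range h, _) = 1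
    rw [← Finset.prod_mul_distrib]
    exact Finset.prod_eq_one fun s _ => hv _
  have hcj : ∀ m : ℕ, cj (a ^ i) ((∏ s ∈ Finset.range m, v ((2 * s + 1 : ℕ) * (i : ZMod p)) :
      Subgroup.closure (Set.range (VV p a u))) : G) =
      ((∏ s ∈ Finset.range m, v ((2 * s + 1 : ℕ) * (i : ZMod p) + i) :
      Subgroup.closure (Set.range (VV p a u))) : G) := by
    intro m
    induction m with
    | zero => simp [cj_one]
    | succ m ih =>
      rw [Finset.prod_range_succ, Finset.prod_range_succ]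
      rw [Subgroup.coe_mul, Subgroup.coe_mul, cj_mul, ih]
      congr 1
      exact VV_shift (L.exp a ha) u i _
  have key : cj (a ^ i) (w : G) * (w : G) = u := by
    rw [hcj h, ← Subgroup.coe_mul, prod_pairs, hprod]
    exact VV_zero a u
  refine ⟨(w : G), w.2, ?_⟩
  have hwi : (w : G)⁻¹ = w := inv_self (congrArg Subtype.val hw2)
  have h3 : a ^ i * u = a ^ i * (cj (a ^ i) (w : G) * (w : G)) := by rw [key]
  rw [h3]
  show (w : G)⁻¹ * a ^ i * w = a ^ i * ((a ^ i)⁻¹ * (w : G) * a ^ i * w)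
  rw [hwi]
  group

/-- **commutativity of `E D a`** -/
theorem E_comm [Fact p.Prime] (hp2 : p ≠ 2) (L : Law D p) {a u w : G} (ha : a ∈ D)
    (hu : u ∈ E D a) (hw : w ∈ E D a) : u * w = w * u := by
  have hpp : p.Prime := Fact.out
  have key := core (hpp.odd_of_ne_two hp2) hpp.one_lt (VV p a u) (VV p a w)
    (VV_sq hu.1) (VV_sq hw.1) (L.pr_eq ha hu) (L.pt_eq ha hw) ?_ 0 0
  · rwa [VV_zero, VV_zero] at key
  · intro j l i k hjl hik
    -- `a ^ m V_j` and `a ^ n T_k` with `m = i - k`, `n = l - j`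
    have hm : (((i - k).val : ℕ) : ZMod p) ≠ 0 := by
      rw [ZMod.natCast_val, ZMod.cast_id]
      exact sub_ne_zero.2 hik
    have hn : (((l - j).val : ℕ) : ZMod p) ≠ 0 := by
      rw [ZMod.natCast_val, ZMod.cast_id]
      exact sub_ne_zero.2 (Ne.symm hjl)
    obtain ⟨v, -, hv⟩ := exists_conj hp2 L ha (L.VV_mem hu j) hm
    obtain ⟨v', -, hv'⟩ := exists_conj hp2 L ha (L.VV_mem hw k) hn
    have h1 : a ^ (i - k).val * VV p a u j ∈ D := by
      rw [← hv]
      exact L.conj _ (L.pow a ha _) _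
    have h2 : a ^ (l - j).val * VV p a w k ∈ D := by
      rw [← hv']
      exact L.conj _ (L.pow a ha _) _
    have h3 := L.comm _ h1 _ h2
    have e : (a ^ (i - k).val * VV p a u j)⁻¹ * (a ^ (l - j).val * VV p a w k)⁻¹ *
        (a ^ (i - k).val * VV p a u j) * (a ^ (l - j).val * VV p a w k) =
        VV p a u j * VV p a w i * VV p a u l * VV p a w k := by
      have e1 : VV p a w i = cj (a ^ (i - k).val) (VV p a w k) := by
        rw [VV_shift (L.exp a ha), ZMod.natCast_val, ZMod.cast_id]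
        congr 1
        ring
      have e2 : VV p a u l = cj (a ^ (l - j).val) (VV p a u j) := by
        rw [VV_shift (L.exp a ha), ZMod.natCast_val, ZMod.cast_id]
        congr 1
        ring
      rw [e1, e2, mul_inv_rev, mul_inv_rev, inv_self (VV_sq hu.1 j), inv_self (VV_sq hw.1 k)]
      unfold cj
      have hc : (a ^ (l - j).val)⁻¹ * a ^ (i - k).val = a ^ (i - k).val * (a ^ (l - j).val)⁻¹ := by
        rw [inv_mul_eq_iff_eq_mul, ← mul_assoc, eq_mul_inv_iff_mul_eq, ← pow_add, ← pow_add,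
          add_comm]
      calc VV p a u j * (a ^ (i - k).val)⁻¹ * (VV p a w k * (a ^ (l - j).val)⁻¹) *
            (a ^ (i - k).val * VV p a u j) * (a ^ (l - j).val * VV p a w k)
          = VV p a u j * (a ^ (i - k).val)⁻¹ * VV p a w k *
            ((a ^ (l - j).val)⁻¹ * a ^ (i - k).val) * VV p a u j * a ^ (l - j).val *
              VV p a w k := by group
        _ = _ := by
            rw [hc]
            group
    rw [e] at h3
    exact h3

theorem E_conj_mul [Fact p.Prime] (hp2 : p ≠ 2) (L : Law D p) {a u w : G} (ha : a ∈ D)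
    (hu : u ∈ E D a) (hw : w ∈ E D a) : u * w ∈ E D a := by
  have hpp : p.Prime := Fact.out
  have hc := E_comm hp2 L ha hu hw
  refine ⟨?_, ?_⟩
  · calc u * w * (u * w) = u * (w * u) * w := by group
      _ = (u * u) * (w * w) := by rw [← hc]; group
      _ = 1 := by rw [hu.1, hw.1, one_mul]
  · have h1 : ((1 : ℕ) : ZMod p) ≠ 0 := cast_ne_zero (by norm_num) hpp.one_lt
    obtain ⟨v, hv, hv'⟩ := exists_conj hp2 L ha hw h1
    rw [pow_one] at hv'
    have h2 : u * v = v * u := by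
      have h3 : Subgroup.closure (Set.range (VV p a w)) ≤ Subgroup.centralizer {u} := by
        rw [Subgroup.closure_le]
        rintro _ ⟨z, rfl⟩
        rw [SetLike.mem_coe, Subgroup.mem_centralizer_singleton_iff]
        exact (E_comm hp2 L ha hu (L.VV_mem hw z)).symm
      have h4 := h3 hv
      rw [Subgroup.mem_centralizer_singleton_iff] at h4
      exact h4.symm
    have h3 : cj v (a * u) = a * (u * w) := by
      rw [cj_mul, hv']
      have h4 : cj v u = u := by
        unfold cj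
        rw [mul_assoc, h2, ← mul_assoc, inv_mul_cancel, one_mul]
      rw [h4, mul_assoc, hc]
    rw [← h3]
    exact L.conj _ hu.2 _

theorem E_mul_eq [Fact p.Prime] (hp2 : p ≠ 2) (L : Law D p) {a u : G} (ha : a ∈ D)
    (hu : u ∈ E D a) : E D (a * u) = E D a := by
  have h0 : u ∈ E D (a * u) := ⟨hu.1, by rw [mul_assoc, hu.1, mul_one]; exact ha⟩
  ext w
  constructor
  · intro hw
    refine ⟨hw.1, ?_⟩
    have h1 := E_conj_mul hp2 L hu.2 h0 hw
    have h2 := h1.2
    rwa [mul_assoc, cancel_l hu.1] at h2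
  · intro hw
    refine ⟨hw.1, ?_⟩
    rw [mul_assoc]
    exact (E_conj_mul hp2 L ha hu hw).2

theorem Law.one_mem (L : Law D p) {a : G} (ha : a ∈ D) : (1 : G) ∈ D := by
  have := L.pow a ha 0
  rwa [pow_zero] at this

theorem Law.comm_mem (L : Law D p) {a b : G} (ha : a ∈ D) (hb : b ∈ D) :
    a⁻¹ * b⁻¹ * a * b ∈ E D a := by
  refine ⟨L.comm a ha b hb, ?_⟩
  have : a * (a⁻¹ * b⁻¹ * a * b) = cj b a := by unfold cj; group
  rw [this]
  exact L.conj a ha b

theorem E_cj_mem [Fact p.Prime] (hp2 : p ≠ 2) (L : Law D p) {a b w : G} (ha : a ∈ D) (hb : b ∈ D)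
    (hw : w ∈ E D a) : cj b w ∈ E D a := by
  have h1 := L.E_cj (g := b) hw
  have h2 : cj b a = a * (a⁻¹ * b⁻¹ * a * b) := by unfold cj; group
  rw [h2, E_mul_eq hp2 L ha (L.comm_mem ha hb)] at h1
  exact h1

/-- `E D a` as a subgroup -/
def EE [Fact p.Prime] (hp2 : p ≠ 2) (L : Law D p) {a : G} (ha : a ∈ D) : Subgroup G where
  carrier := E D a
  one_mem' := ⟨one_mul 1, by rw [mul_one]; exact ha⟩
  mul_mem' := fun hu hw => E_conj_mul hp2 L ha hu hw
  inv_mem' := fun {u} hu => by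
    show u⁻¹ ∈ E D a
    rw [inv_self hu.1]
    exact hu

theorem EE_normal [Fact p.Prime] (hp2 : p ≠ 2) (L : Law D p) {a : G} (ha : a ∈ D)
    (hD : Subgroup.closure D = ⊤) : (EE hp2 L ha).Normal := by
  rw [← Subgroup.normalizer_eq_top_iff, eq_top_iff, ← hD, Subgroup.closure_le]
  intro b hb
  rw [SetLike.mem_coe, Subgroup.mem_normalizer_iff]
  have hb' : b⁻¹ ∈ D := by
    have h1 : b⁻¹ = b ^ (p - 1) := by
      have hp : p - 1 + 1 = p := Nat.succ_pred_eq_of_pos (Fact.out : p.Prime).pos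
      rw [inv_eq_iff_mul_eq_one, ← pow_succ', hp]
      exact L.exp b hb
    rw [h1]
    exact L.pow b hb _
  intro h
  constructor
  · intro hh
    have h1 := E_cj_mem hp2 L ha hb' hh
    unfold cj at h1
    rw [inv_inv] at h1
    exact h1
  · intro hh
    have h1 := E_cj_mem hp2 L ha hb hh
    have h2 : cj b (b * h * b⁻¹) = h := by unfold cj; group
    rw [h2] at h1
    exact h1

end Pool.Agent.V7H15.Inv
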