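import Mathlib

/-!
Locally finite subgroups: extensions and products of normal subgroups.
-/

namespace Pool.Agent.V7H15.Inv

universe u

variable {G : Type*} [Group G]

/-- every finite subset of `N` generates a finite subgroup -/
def LF (N : Subgroup G) : Prop := ∀ S : Set G, S.Finite → S ⊆ N → Finite (Subgroup.closure S)

theorem finite_of_ker {H Q : Type*} [Group H] [Group Q] (hH : Group.FG H) (f : H →* Q)
    (hf : Finite f.range) (hk : LF f.ker) : Finite H := by
  have hidx : f.ker.index ≠ 0 := by
    rw [Subgroup.index_ker]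
    exact Nat.card_ne_zero.2 ⟨inferInstance, hf⟩
  have hfi : f.ker.FiniteIndex := ⟨hidx⟩
  have hfg : Group.FG f.ker := Subgroup.fg_of_index_ne_zero f.ker
  obtain ⟨S, hS, hSf⟩ := Group.fg_iff.1 hfg
  have h1 : Subgroup.closure (Subtype.val '' S) = f.ker := by
    have h2 : Subgroup.closure (f.ker.subtype '' S) = Subgroup.map f.ker.subtype ⊤ := by
      rw [← hS, MonoidHom.map_closure]
    rw [← MonoidHom.range_eq_map, Subgroup.range_subtype] at h2
    exact h2
  have h3 : Finite (Subgroup.closure (Subtype.val '' S)) := by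
    refine hk _ (hSf.image _) ?_
    rintro _ ⟨x, -, rfl⟩
    exact x.2
  rw [h1] at h3
  refine Nat.finite_of_card_ne_zero ?_
  rw [← Subgroup.card_mul_index f.ker]
  exact mul_ne_zero (Nat.card_ne_zero.2 ⟨inferInstance, h3⟩) hidx

theorem closure_fg {S : Set G} (hS : S.Finite) : Group.FG (Subgroup.closure S) := by
  rw [Group.fg_iff_subgroup_fg]
  exact ⟨hS.toFinset, by rw [hS.coe_toFinset]⟩

/-- a finite set generates a finite subgroup if its image does and the kernel is locally finite -/
theorem finite_closure {Q : Type*} [Group Q] (f : G →* Q) {S : Set G} (hS : S.Finite)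
    (hf : Finite (Subgroup.closure (f '' S))) (hk : LF f.ker) : Finite (Subgroup.closure S) := by
  refine finite_of_ker (closure_fg hS) (f.comp (Subgroup.closure S).subtype) ?_ ?_
  · have h1 : (f.comp (Subgroup.closure S).subtype).range = Subgroup.closure (f '' S) := by
      rw [MonoidHom.range_comp, Subgroup.range_subtype, MonoidHom.map_closure]
    rw [h1]
    exact hf
  · intro T hT hTk
    have h1 : Finite (Subgroup.closure (Subtype.val '' T)) := by
      refine hk _ (hT.image _) ?_
      rintro _ ⟨x, hx, rfl⟩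
      exact hTk hx
    have h2 : Subgroup.closure (Subtype.val '' T) =
        Subgroup.map (Subgroup.closure S).subtype (Subgroup.closure T) := by
      rw [MonoidHom.map_closure]
      rfl
    rw [h2] at h1
    exact Finite.of_equiv _ (Subgroup.equivMapOfInjective (Subgroup.closure T)
      (Subgroup.closure S).subtype (Subgroup.subtype_injective _)).symm.toEquiv

theorem LF_mono {M N : Subgroup G} (h : M ≤ N) (hN : LF N) : LF M :=
  fun S hS hSM => hN S hS (hSM.trans h)

theorem LF_bot : LF (⊥ : Subgroup G) := by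
  intro S _ hS
  have h1 : Subgroup.closure S ≤ ⊥ := (Subgroup.closure_le _).2 hS
  rw [le_bot_iff.1 h1]
  infer_instance

theorem LF_map {Q : Type*} [Group Q] (f : G →* Q) {N : Subgroup G} (hN : LF N) :
    LF (N.map f) := by
  intro S hS hSN
  classical
  choose! g hg using fun (x : Q) (hx : x ∈ S) => Subgroup.mem_map.1 (hSN hx)
  have h1 : Finite (Subgroup.closure (g '' S)) := by
    refine hN _ (hS.image _) ?_
    rintro _ ⟨x, hx, rfl⟩
    exact (hg x hx).1
  have h2 : Subgroup.closure S = Subgroup.map f (Subgroup.closure (g '' S)) := by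
    rw [MonoidHom.map_closure, ← Set.image_comp]
    congr 1
    ext x
    constructor
    · intro hx
      exact ⟨x, hx, (hg x hx).2⟩
    · rintro ⟨y, hy, rfl⟩
      show f (g y) ∈ S
      rw [(hg y hy).2]
      exact hy
  rw [h2]
  exact Finite.of_surjective (fun x : Subgroup.closure (g '' S) =>
    (⟨f x, Subgroup.mem_map_of_mem f x.2⟩ : Subgroup.map f (Subgroup.closure (g '' S))))
    (by
      rintro ⟨_, x, hx, rfl⟩
      exact ⟨⟨x, hx⟩, rfl⟩)

/-- extension -/
theorem LF_ext {Q : Type*} [Group Q] (f : G →* Q) {N : Subgroup G} (h1 : LF (N.map f))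
    (h2 : LF f.ker) : LF N := by
  intro S hS hSN
  refine finite_closure f hS (h1 _ (hS.image _) ?_) h2
  rintro _ ⟨x, hx, rfl⟩
  exact Subgroup.mem_map_of_mem f (hSN hx)

theorem LF_sup {M N : Subgroup G} [M.Normal] (hM : LF M) (hN : LF N) : LF (M ⊔ N) := by
  refine LF_ext (QuotientGroup.mk' M) ?_ ?_
  · have h1 : (M ⊔ N).map (QuotientGroup.mk' M) = N.map (QuotientGroup.mk' M) := by
      rw [Subgroup.map_sup]
      have h2 : M.map (QuotientGroup.mk' M) = ⊥ := by
        rw [Subgroup.map_eq_bot_iff, QuotientGroup.ker_mk']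
      rw [h2, bot_sup_eq]
    rw [h1]
    exact LF_map _ hN
  · rw [QuotientGroup.ker_mk']
    exact hM

theorem LF_finset_sup {ι : Type*} (N : ι → Subgroup G) (hn : ∀ i, (N i).Normal)
    (hN : ∀ i, LF (N i)) (F : Finset ι) : (F.sup N).Normal ∧ LF (F.sup N) := by
  classical
  induction F using Finset.induction_on with
  | empty => exact ⟨by rw [Finset.sup_empty]; infer_instance, by rw [Finset.sup_empty]; exact LF_bot⟩
  | insert i F _ ih =>
    rw [Finset.sup_insert]
    have := hn i
    have := ih.1
    exact ⟨inferInstance, LF_sup (hN i) ih.2⟩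

/-- an element of a supremum lies in a finite one -/
theorem mem_finset_sup {ι : Type*} (N : ι → Subgroup G) {x : G} (hx : x ∈ ⨆ i, N i) :
    ∃ F : Finset ι, x ∈ F.sup N := by
  classical
  induction hx using Subgroup.iSup_induction' with
  | hp i x hx => exact ⟨{i}, by rwa [Finset.sup_singleton]⟩
  | h1 => exact ⟨∅, Subgroup.one_mem _⟩
  | hmul x y _ _ hx hy =>
    obtain ⟨F, hF⟩ := hx
    obtain ⟨F', hF'⟩ := hy
    refine ⟨F ∪ F', ?_⟩
    rw [Finset.sup_union]
    exact Subgroup.mul_mem _ (Subgroup.mem_sup_left hF) (Subgroup.mem_sup_right hF')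

theorem LF_iSup {ι : Type*} (N : ι → Subgroup G) (hn : ∀ i, (N i).Normal)
    (hN : ∀ i, LF (N i)) : LF (⨆ i, N i) := by
  classical
  intro S hS hSN
  choose! F hF using fun (x : G) (hx : x ∈ S) => mem_finset_sup N (hSN hx)
  refine (LF_finset_sup N hn hN (hS.toFinset.biUnion F)).2 S hS ?_
  intro x hx
  have h1 : (F x).sup N ≤ (hS.toFinset.biUnion F).sup N :=
    Finset.sup_mono (Finset.subset_biUnion_of_mem F (hS.mem_toFinset.2 hx))
  exact h1 (hF x hx)

/-- elements of `2`-power order -/
def TwoEl (N : Subgroup G) : Prop := ∀ x ∈ N, ∃ k : ℕ, x ^ 2 ^ k = 1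

theorem TwoEl_sup {M N : Subgroup G} [M.Normal] (hM : TwoEl M) (hN : TwoEl N) :
    TwoEl (M ⊔ N) := by
  intro x hx
  rw [Subgroup.mem_sup_of_normal_left] at hx
  obtain ⟨y, hy, z, hz, rfl⟩ := hx
  obtain ⟨k, hk⟩ := hN z hz
  have h1 : (y * z) ^ 2 ^ k ∈ M := by
    rw [← QuotientGroup.eq_one_iff]
    rw [QuotientGroup.mk_pow, QuotientGroup.mk_mul, (QuotientGroup.eq_one_iff y).2 hy, one_mul,
      ← QuotientGroup.mk_pow, hk, QuotientGroup.mk_one]
  obtain ⟨l, hl⟩ := hM _ h1
  exact ⟨k + l, by rw [pow_add, pow_mul, hl]⟩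

theorem TwoEl_bot : TwoEl (⊥ : Subgroup G) := by
  intro x hx
  rw [Subgroup.mem_bot] at hx
  exact ⟨0, by rw [hx, one_pow]⟩

theorem TwoEl_iSup {ι : Type*} (N : ι → Subgroup G) (hn : ∀ i, (N i).Normal)
    (hN : ∀ i, TwoEl (N i)) : TwoEl (⨆ i, N i) := by
  classical
  have key : ∀ F : Finset ι, (F.sup N).Normal ∧ TwoEl (F.sup N) := by
    intro F
    induction F using Finset.induction_on with
    | empty => exact ⟨by rw [Finset.sup_empty]; infer_instance,
        by rw [Finset.sup_empty]; exact TwoEl_bot⟩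
    | insert i F _ ih =>
      rw [Finset.sup_insert]
      have := hn i
      have := ih.1
      exact ⟨inferInstance, TwoEl_sup (hN i) ih.2⟩
  intro x hx
  obtain ⟨F, hF⟩ := mem_finset_sup N hx
  exact (key F).2 x hF

/-- a set of commuting elements of finite order is locally finite -/
theorem LF_of_comm {Q : Type*} [Group Q] {S : Set Q} (hS : S.Finite)
    (hc : ∀ x ∈ S, ∀ y ∈ S, x * y = y * x) {n : ℕ} (hn : 0 < n) (ht : ∀ x ∈ S, x ^ n = 1) :
    Finite (Subgroup.closure S) := by
  have hMC := Subgroup.isMulCommutative_closure hc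
  let CG : CommGroup (Subgroup.closure S) :=
    { (inferInstance : Group (Subgroup.closure S)) with
      mul_comm := fun x y => hMC.is_comm.comm x y }
  have hfg : Group.FG (Subgroup.closure S) := closure_fg hS
  have htor : ∀ x : Subgroup.closure S, x ^ n = 1 := by
    rintro ⟨x, hx⟩
    induction hx using Subgroup.closure_induction with
    | mem x hx => exact Subtype.ext (ht x hx)
    | one => exact one_pow n
    | mul x y hx hy ihx ihy =>
      have h1 := mul_pow (⟨x, hx⟩ : Subgroup.closure S) ⟨y, hy⟩ n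
      rw [ihx, ihy, one_mul] at h1
      exact h1
    | inv x hx ih =>
      have h1 := inv_pow (⟨x, hx⟩ : Subgroup.closure S) n
      rw [ih, inv_one] at h1
      exact h1
  exact CommGroup.finite_of_fg_isMulTorsion _
    (fun x => isOfFinOrder_iff_pow_eq_one.2 ⟨n, hn, htor x⟩)

/-- an element of a generated subgroup lies in a finitely generated one -/
theorem mem_closure_finite {D : Set G} {x : G} (hx : x ∈ Subgroup.closure D) :
    ∃ F : Set G, F.Finite ∧ F ⊆ D ∧ x ∈ Subgroup.closure F := by
  induction hx using Subgroup.closure_induction with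
  | mem x hx => exact ⟨{x}, Set.finite_singleton x, Set.singleton_subset_iff.2 hx,
      Subgroup.subset_closure rfl⟩
  | one => exact ⟨∅, Set.finite_empty, Set.empty_subset _, Subgroup.one_mem _⟩
  | mul x y _ _ ihx ihy =>
    obtain ⟨F, h1, h2, h3⟩ := ihx
    obtain ⟨F', h1', h2', h3'⟩ := ihy
    exact ⟨F ∪ F', h1.union h1', Set.union_subset h2 h2', Subgroup.mul_mem _
      (Subgroup.closure_mono Set.subset_union_left h3)
      (Subgroup.closure_mono Set.subset_union_right h3')⟩
  | inv x _ ih =>
    obtain ⟨F, h1, h2, h3⟩ := ih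
    exact ⟨F, h1, h2, Subgroup.inv_mem _ h3⟩

/-- it is enough to consider finite subsets of a generating set -/
theorem LF_closure {D : Set G}
    (h : ∀ F : Set G, F.Finite → F ⊆ D → Finite (Subgroup.closure F)) :
    LF (Subgroup.closure D) := by
  classical
  intro S hS hSD
  choose! F hF1 hF2 hF3 using fun (x : G) (hx : x ∈ S) => mem_closure_finite (hSD hx)
  have h1 : Finite (Subgroup.closure (⋃ x ∈ S, F x)) := by
    refine h _ (hS.biUnion hF1) ?_
    exact Set.iUnion₂_subset hF2
  have h2 : Subgroup.closure S ≤ Subgroup.closure (⋃ x ∈ S, F x) := by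
    rw [Subgroup.closure_le]
    intro x hx
    exact Subgroup.closure_mono (Set.subset_biUnion_of_mem hx) (hF3 x hx)
  exact Finite.of_injective (Subgroup.inclusion h2) (Subgroup.inclusion_injective h2)

end Pool.Agent.V7H15.Inv
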