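import Pool.Agent.V7H15.Inv.EA
import Pool.Agent.V7H15.Inv.LF

/-!
The subgroup generated by a class of elements of odd prime order whose commutators have order at
most two.
-/

namespace Pool.Agent.V7H15.Inv

open scoped commutatorElement

universe u

variable {G : Type u} [Group G] {D : Set G} {p : ℕ}

theorem EE_LF [Fact p.Prime] (hp2 : p ≠ 2) (L : Law D p) {a : G} (ha : a ∈ D) :
    LF (EE hp2 L ha) := by
  intro S hS hSE
  exact LF_of_comm hS (fun x hx y hy => E_comm hp2 L ha (hSE hx) (hSE hy)) (n := 2) (by norm_num)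
    (fun x hx => by rw [pow_two]; exact (hSE hx).1)

theorem EE_le_commutator [Fact p.Prime] (hp2 : p ≠ 2) (L : Law D p) {a : G} (ha : a ∈ D) :
    EE hp2 L ha ≤ commutator G := by
  intro u hu
  have hpp : p.Prime := Fact.out
  have h1 : ((1 : ℕ) : ZMod p) ≠ 0 := cast_ne_zero (by norm_num) hpp.one_lt
  obtain ⟨v, -, hv⟩ := exists_conj hp2 L ha hu h1
  rw [pow_one] at hv
  have h2 : u = ⁅a⁻¹, v⁻¹⁆ := by
    have h3 : u = a⁻¹ * cj v a := by rw [hv, inv_mul_cancel_left]
    rw [h3, commutatorElement_def]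
    unfold cj
    group
  rw [h2]
  exact Subgroup.commutator_mem_commutator (Subgroup.mem_top _) (Subgroup.mem_top _)

/-- the join of the groups `E D a` -/
def M [Fact p.Prime] (hp2 : p ≠ 2) (L : Law D p) : Subgroup G := ⨆ a : D, EE hp2 L a.2

theorem M_normal [Fact p.Prime] (hp2 : p ≠ 2) (L : Law D p) (hD : Subgroup.closure D = ⊤) :
    (M hp2 L).Normal := by
  have h1 : ∀ a : D, (EE hp2 L a.2).Normal := fun a => EE_normal hp2 L a.2 hD
  exact Subgroup.iSup_normal _

theorem M_comm [Fact p.Prime] (hp2 : p ≠ 2) (L : Law D p) {a b : G} (ha : a ∈ D) (hb : b ∈ D) :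
    a⁻¹ * b⁻¹ * a * b ∈ M hp2 L :=
  (le_iSup (fun a : D => EE hp2 L a.2) ⟨a, ha⟩) (L.comm_mem ha hb)

theorem mk_comm [Fact p.Prime] (hp2 : p ≠ 2) (L : Law D p) [(M hp2 L).Normal] {a b : G}
    (ha : a ∈ D) (hb : b ∈ D) :
    (QuotientGroup.mk' (M hp2 L) a) * (QuotientGroup.mk' (M hp2 L) b) =
      (QuotientGroup.mk' (M hp2 L) b) * (QuotientGroup.mk' (M hp2 L) a) := by
  rw [← map_mul, ← map_mul]
  show (QuotientGroup.mk (a * b) : G ⧸ M hp2 L) = QuotientGroup.mk (b * a)
  symm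
  rw [QuotientGroup.eq]
  have : (b * a)⁻¹ * (a * b) = a⁻¹ * b⁻¹ * a * b := by group
  rw [this]
  exact M_comm hp2 L ha hb

theorem commutator_eq [Fact p.Prime] (hp2 : p ≠ 2) (L : Law D p)
    (hD : Subgroup.closure D = ⊤) : M hp2 L = commutator G := by
  have hN := M_normal hp2 L hD
  apply le_antisymm
  · exact iSup_le fun a => EE_le_commutator hp2 L a.2
  · have h1 : ∀ x ∈ (QuotientGroup.mk' (M hp2 L)) '' D, ∀ y ∈ (QuotientGroup.mk' (M hp2 L)) '' D,
        x * y = y * x := by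
      rintro _ ⟨a, ha, rfl⟩ _ ⟨b, hb, rfl⟩
      exact mk_comm hp2 L ha hb
    have h2 := Subgroup.isMulCommutative_closure h1
    have h3 : Subgroup.closure ((QuotientGroup.mk' (M hp2 L)) '' D) = ⊤ := by
      rw [← MonoidHom.map_closure, hD, ← MonoidHom.range_eq_map, QuotientGroup.range_mk']
    rw [commutator_def, Subgroup.commutator_le]
    intro a _ b _
    have h4 : (QuotientGroup.mk' (M hp2 L) a) * (QuotientGroup.mk' (M hp2 L) b) =
        (QuotientGroup.mk' (M hp2 L) b) * (QuotientGroup.mk' (M hp2 L) a) := by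
      have ha : QuotientGroup.mk' (M hp2 L) a ∈
          Subgroup.closure ((QuotientGroup.mk' (M hp2 L)) '' D) := by rw [h3]; trivial
      have hb : QuotientGroup.mk' (M hp2 L) b ∈
          Subgroup.closure ((QuotientGroup.mk' (M hp2 L)) '' D) := by rw [h3]; trivial
      exact congrArg Subtype.val (h2.is_comm.comm ⟨_, ha⟩ ⟨_, hb⟩)
    rw [← QuotientGroup.eq_one_iff]
    show QuotientGroup.mk' (M hp2 L) ⁅a, b⁆ = 1
    rw [map_commutatorElement, commutatorElement_eq_one_iff_mul_comm]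
    exact h4

theorem LF_top [Fact p.Prime] (hp2 : p ≠ 2) (L : Law D p) (hD : Subgroup.closure D = ⊤) :
    LF (⊤ : Subgroup G) := by
  have hN := M_normal hp2 L hD
  rw [← hD]
  refine LF_closure fun F hF hFD => ?_
  refine finite_closure (QuotientGroup.mk' (M hp2 L)) hF ?_ ?_
  · refine LF_of_comm (hF.image _) ?_ (Fact.out : p.Prime).pos ?_
    · rintro _ ⟨a, ha, rfl⟩ _ ⟨b, hb, rfl⟩
      exact mk_comm hp2 L (hFD ha) (hFD hb)
    · rintro _ ⟨a, ha, rfl⟩
      rw [← map_pow, L.exp a (hFD ha), map_one]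
  · rw [QuotientGroup.ker_mk']
    exact LF_iSup _ (fun a : D => EE_normal hp2 L a.2 hD) (fun a : D => EE_LF hp2 L a.2)

theorem TwoEl_commutator [Fact p.Prime] (hp2 : p ≠ 2) (L : Law D p)
    (hD : Subgroup.closure D = ⊤) : TwoEl (commutator G) := by
  rw [← commutator_eq hp2 L hD]
  exact TwoEl_iSup _ (fun a : D => EE_normal hp2 L a.2 hD)
    (fun a : D => fun x hx => ⟨1, by rw [pow_one, pow_two]; exact hx.1⟩)

/-! ### the subgroup generated by `D` -/

/-- `D` as a subset of the subgroup it generates -/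
def DT (D : Set G) : Set (Subgroup.closure D) := {y | (y : G) ∈ D}

theorem law_DT (L : Law D p) : Law (DT D) p where
  conj := fun y hy g => by
    show ((cj g y : Subgroup.closure D) : G) ∈ D
    exact L.conj _ hy (g : G)
  pow := fun y hy k => by
    show ((y ^ k : Subgroup.closure D) : G) ∈ D
    rw [Subgroup.coe_pow]
    exact L.pow _ hy k
  exp := fun y hy => Subtype.ext (by rw [Subgroup.coe_pow, L.exp _ hy]; rfl)
  comm := fun y hy z hz => Subtype.ext (L.comm _ hy _ hz)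

theorem closure_DT (D : Set G) : Subgroup.closure (DT D) = ⊤ :=
  Subgroup.closure_closure_coe_preimage

/-- the structure of the subgroup generated by `D` -/
theorem structure_closure [Fact p.Prime] (hp2 : p ≠ 2) (L : Law D p) :
    LF (Subgroup.closure D) ∧
    (∀ y ∈ ⁅Subgroup.closure D, Subgroup.closure D⁆, ∃ k : ℕ, y ^ 2 ^ k = 1) ∧
    ∃ A : Set (Subgroup G), (∀ E ∈ A, (∀ u ∈ E, u ^ 2 = 1) ∧
        ∀ t ∈ Subgroup.closure D, ∀ u ∈ E, t⁻¹ * u * t ∈ E) ∧
      sSup A = ⁅Subgroup.closure D, Subgroup.closure D⁆ := by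
  have hLT := law_DT L
  have hDT := closure_DT D
  have hcm : ⁅Subgroup.closure D, Subgroup.closure D⁆ =
      (commutator (Subgroup.closure D)).map (Subgroup.closure D).subtype := by
    rw [commutator_def, Subgroup.map_commutator, ← MonoidHom.range_eq_map,
      Subgroup.range_subtype]
  refine ⟨?_, ?_, ?_⟩
  · have h1 := LF_map (Subgroup.closure D).subtype (LF_top hp2 hLT hDT)
    rwa [← MonoidHom.range_eq_map, Subgroup.range_subtype] at h1
  · rw [hcm]
    rintro _ ⟨y, hy, rfl⟩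
    obtain ⟨k, hk⟩ := TwoEl_commutator hp2 hLT hDT y hy
    exact ⟨k, by rw [← map_pow, hk, map_one]⟩
  · refine ⟨Set.range fun a : DT D => (EE hp2 hLT a.2).map (Subgroup.closure D).subtype, ?_, ?_⟩
    · rintro _ ⟨a, rfl⟩
      have hn := EE_normal hp2 hLT a.2 hDT
      refine ⟨?_, ?_⟩
      · rintro _ ⟨y, hy, rfl⟩
        rw [← map_pow, pow_two, hy.1, map_one]
      · rintro t ht _ ⟨y, hy, rfl⟩
        have h1 := hn.conj_mem y hy (⟨t, ht⟩⁻¹ : Subgroup.closure D)
        rw [inv_inv] at h1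
        exact ⟨_, h1, rfl⟩
    · rw [sSup_range, hcm, ← commutator_eq hp2 hLT hDT]
      unfold M
      rw [Subgroup.map_iSup]

/-! ### one element -/

/-- all powers of `x` and of its conjugates have commutators of order at most two -/
def Small (x : G) : Prop := ∀ (g : G) (i j : ℕ), ⁅x ^ i, g⁻¹ * x ^ j * g⁆ ^ 2 = 1

/-- the conjugates of the powers of `x` -/
def Dx (x : G) : Set G := {y | ∃ (g : G) (i : ℕ), y = cj g (x ^ i)}

theorem law_Dx {x : G} (hp : 0 < p) (hx : x ^ p = 1) (hS : Small x) : Law (Dx x) p := by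
  refine ⟨?_, ?_, ?_, ?_⟩
  · rintro _ ⟨h, i, rfl⟩ g
    exact ⟨h * g, i, cj_cj h g (x ^ i)⟩
  · rintro y ⟨h, i, hy⟩ k
    refine ⟨h, i * k, ?_⟩
    rw [hy, ← cj_pow, ← pow_mul]
  · rintro _ ⟨h, i, rfl⟩
    rw [← cj_pow, ← pow_mul, mul_comm, pow_mul, hx, one_pow, cj_one]
  · rintro _ ⟨h, i, rfl⟩ _ ⟨k, j, rfl⟩
    have hinv : ∀ i : ℕ, (x ^ i)⁻¹ = x ^ ((p - 1) * i) := by
      intro i
      rw [inv_eq_iff_mul_eq_one, ← pow_add]
      have : i + (p - 1) * i = p * i := by
        obtain ⟨q, rfl⟩ := Nat.exists_eq_succ_of_ne_zero hp.ne'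
        simp only [Nat.succ_sub_one, Nat.succ_eq_add_one]
        ring
      rw [this, pow_mul, hx, one_pow]
    have h1 := hS (k * h⁻¹) ((p - 1) * i) ((p - 1) * j)
    have h2 : (cj h (x ^ i))⁻¹ * (cj k (x ^ j))⁻¹ * cj h (x ^ i) * cj k (x ^ j) =
        cj h ⁅x ^ ((p - 1) * i), (k * h⁻¹)⁻¹ * x ^ ((p - 1) * j) * (k * h⁻¹)⁆ := by
      rw [← hinv i, ← hinv j, commutatorElement_def]
      unfold cj
      group
    rw [h2, ← cj_mul, ← pow_two, h1, cj_one]

theorem closure_Dx (x : G) : Subgroup.closure (Dx x) = Subgroup.normalClosure {x} := by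
  apply le_antisymm
  · rw [Subgroup.closure_le]
    rintro _ ⟨g, i, rfl⟩
    have h1 : x ^ i ∈ Subgroup.normalClosure {x} :=
      Subgroup.pow_mem _ (Subgroup.subset_normalClosure (Set.mem_singleton x)) i
    have h2 := (Subgroup.normalClosure_normal (s := {x})).conj_mem _ h1 g⁻¹
    rwa [inv_inv] at h2
  · have h3 : (Subgroup.closure (Dx x)).Normal := by
      refine ⟨fun n hn g => ?_⟩
      induction hn using Subgroup.closure_induction with
      | mem y hy =>
        obtain ⟨h, i, rfl⟩ := hy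
        apply Subgroup.subset_closure
        refine ⟨h * g⁻¹, i, ?_⟩
        rw [← cj_cj]
        unfold cj
        group
      | one => rw [mul_one, mul_inv_cancel]; exact Subgroup.one_mem _
      | mul y z _ _ ihy ihz =>
        have : g * (y * z) * g⁻¹ = (g * y * g⁻¹) * (g * z * g⁻¹) := by group
        rw [this]
        exact Subgroup.mul_mem _ ihy ihz
      | inv y _ ih =>
        have : g * y⁻¹ * g⁻¹ = (g * y * g⁻¹)⁻¹ := by group
        rw [this]
        exact Subgroup.inv_mem _ ih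
    apply Subgroup.normalClosure_le_normal
    rintro _ rfl
    exact Subgroup.subset_closure ⟨1, 1, by rw [pow_one, one_cj]⟩

/-- prime order -/
theorem main_prime (hp : p.Prime) (hp2 : p ≠ 2) {x : G} (hx : x ^ p = 1) (hS : Small x) :
    LF (Subgroup.normalClosure {x}) ∧
    (∀ y ∈ ⁅Subgroup.normalClosure {x}, Subgroup.normalClosure {x}⁆, ∃ k : ℕ, y ^ 2 ^ k = 1) ∧
    ∃ A : Set (Subgroup G), (∀ E ∈ A, (∀ u ∈ E, u ^ 2 = 1) ∧
        ∀ t ∈ Subgroup.normalClosure {x}, ∀ u ∈ E, t⁻¹ * u * t ∈ E) ∧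
      sSup A = ⁅Subgroup.normalClosure {x}, Subgroup.normalClosure {x}⁆ := by
  have : Fact p.Prime := ⟨hp⟩
  have h := structure_closure hp2 (law_Dx hp.pos hx hS)
  rwa [closure_Dx] at h

theorem Small_pow {x : G} (hS : Small x) (k : ℕ) : Small (x ^ k) := by
  intro g i j
  rw [← pow_mul, ← pow_mul]
  exact hS g _ _

theorem Small_map {Q : Type*} [Group Q] (f : G →* Q) (hf : Function.Surjective f) {x : G}
    (hS : Small x) : Small (f x) := by
  intro g i j
  obtain ⟨g, rfl⟩ := hf g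
  rw [← map_pow, ← map_pow, ← map_inv, ← map_mul, ← map_mul, ← map_commutatorElement, ← map_pow,
    hS g i j, map_one]

end Pool.Agent.V7H15.Inv
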