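import Pool.Agent.V7H15.Inv.Main

/-!
If the commutators `[x, x ^ g]` have order at most two, so do those of the powers of `x` and of its
conjugates.
-/

namespace Pool.Agent.V7H15.Inv

open scoped commutatorElement

universe u

variable {G : Type u} [Group G]

/-- closed under conjugation, commutators of order at most two -/
structure Law1 (C : Set G) : Prop where
  conj : ∀ y ∈ C, ∀ g : G, cj g y ∈ C
  comm : ∀ y ∈ C, ∀ z ∈ C, (y⁻¹ * z⁻¹ * y * z) * (y⁻¹ * z⁻¹ * y * z) = 1

/-- `V k * ... * V 1` -/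
def prN (V : ℕ → G) : ℕ → G
  | 0 => 1
  | k + 1 => V (k + 1) * prN V k

/-- `V (k - 1) * ... * V 0` -/
def ptN (V : ℕ → G) : ℕ → G
  | 0 => 1
  | k + 1 => V k * ptN V k

theorem prN_ptN (V : ℕ → G) (k : ℕ) : prN V k * V 0 = V k * ptN V k := by
  induction k with
  | zero => simp [prN, ptN]
  | succ k ih =>
    show V (k + 1) * prN V k * V 0 = V (k + 1) * (V k * ptN V k)
    rw [mul_assoc, ih]

theorem cj_ptN {a : G} {V : ℕ → G} (h : ∀ k, cj a (V k) = V (k + 1)) (k : ℕ) :
    cj a (ptN V k) = prN V k := by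
  induction k with
  | zero => exact cj_one a
  | succ k ih =>
    show cj a (V k * ptN V k) = V (k + 1) * prN V k
    rw [cj_mul, h, ih]

variable {C : Set G}

theorem Law1.one (L : Law1 C) {a u : G} (ha : a ∈ C) (hu : u ∈ E C a) :
    cj a u * u = u * cj a u := by
  have h := L.comm a ha _ hu.2
  have e : a⁻¹ * (a * u)⁻¹ * a * (a * u) = cj a u * u := by
    unfold cj
    rw [mul_inv_rev, inv_self hu.1]
    group
  rw [e] at h
  exact comm_of_sq (by rw [← cj_mul, hu.1, cj_one]) hu.1 h

theorem Law1.all (L : Law1 C) {a : G} (ha : a ∈ C) (k : ℕ) :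
    ∀ j ≤ k, ∀ u ∈ E C a, cj (a ^ j) u * u = u * cj (a ^ j) u := by
  induction k with
  | zero =>
    intro j hj u _
    rw [Nat.le_zero.1 hj, pow_zero, one_cj]
  | succ k ih =>
    intro j hj u hu
    rcases Nat.lt_or_ge j (k + 1) with h1 | h1
    · exact ih j (by omega) u hu
    have hjk : j = k + 1 := le_antisymm hj h1
    subst hjk
    rcases Nat.eq_zero_or_pos k with h0 | h0
    · subst h0
      rw [zero_add, pow_one]
      exact L.one ha hu
    -- the conjugates
    let V : ℕ → G := fun m => cj (a ^ m) u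
    have hV0 : V 0 = u := by
      show cj (a ^ 0) u = u
      rw [pow_zero, one_cj]
    have hVs : ∀ m, cj a (V m) = V (m + 1) := by
      intro m
      show cj a (cj (a ^ m) u) = cj (a ^ (m + 1)) u
      rw [cj_cj, pow_succ]
    have hVa : ∀ i m, cj (a ^ i) (V m) = V (m + i) := by
      intro i m
      show cj (a ^ i) (cj (a ^ m) u) = cj (a ^ (m + i)) u
      rw [cj_cj, pow_add]
    have hsq : ∀ m, V m * V m = 1 := fun m => by
      show cj (a ^ m) u * cj (a ^ m) u = 1
      rw [← cj_mul, hu.1, cj_one]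
    -- close elements commute
    have hc : ∀ i m, m ≤ k → V (i + m) * V i = V i * V (i + m) := by
      intro i m hm
      have h2 := ih m hm u hu
      have h3 : V (i + m) = cj (a ^ i) (cj (a ^ m) u) := by
        have h4 := hVa i m
        rw [add_comm i m]
        exact h4.symm
      have h5 : V i = cj (a ^ i) u := rfl
      rw [h3, h5, ← cj_mul, ← cj_mul, h2]
    -- the new element
    have hpr : ∀ m, m ≤ k → V k * prN V m = prN V m * V k := by
      intro m
      induction m with
      | zero => intro _; simp [prN]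
      | succ m ihm =>
        intro hm
        show V k * (V (m + 1) * prN V m) = V (m + 1) * prN V m * V k
        have h2 := hc (m + 1) (k - (m + 1)) (by omega)
        have h3 : m + 1 + (k - (m + 1)) = k := by omega
        rw [h3] at h2
        rw [← mul_assoc, h2, mul_assoc, ihm (by omega), mul_assoc]
    have hk0 : V k * V 0 = V 0 * V k := by
      have h2 := hc 0 k le_rfl
      rwa [zero_add] at h2
    have he2 : (V k * V 0) * (V k * V 0) = 1 := by
      calc (V k * V 0) * (V k * V 0) = V k * (V 0 * V k) * V 0 := by group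
        _ = (V k * V k) * (V 0 * V 0) := by rw [← hk0]; group
        _ = 1 := by rw [hsq, hsq, one_mul]
    have hea : a * (V k * V 0) ∈ C := by
      have h2 : cj (ptN V k) a = a * ((cj a (ptN V k))⁻¹ * ptN V k) := by
        unfold cj
        group
      have h3 : ptN V k = (V k)⁻¹ * (prN V k * V 0) := by
        rw [prN_ptN]; group
      have h4 : (prN V k)⁻¹ * ptN V k = V k * V 0 := by
        rw [h3]
        have h5 : (prN V k)⁻¹ * (V k)⁻¹ = (V k)⁻¹ * (prN V k)⁻¹ := by
          rw [← mul_inv_rev, ← mul_inv_rev, hpr k le_rfl]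
        calc (prN V k)⁻¹ * ((V k)⁻¹ * (prN V k * V 0)) =
              ((prN V k)⁻¹ * (V k)⁻¹) * (prN V k * V 0) := by group
          _ = (V k)⁻¹ * V 0 := by rw [h5]; group
          _ = V k * V 0 := by rw [inv_self (hsq k)]
      rw [cj_ptN hVs, h4] at h2
      rw [← h2]
      exact L.conj a ha _
    have h6 := L.one ha (u := V k * V 0) ⟨he2, hea⟩
    rw [cj_mul, hVs, hVs, zero_add] at h6
    -- commutation relations
    have c1 : V (k + 1) * V k = V k * V (k + 1) := hc k 1 (by omega)
    have c2 : V k * V 1 = V 1 * V k := by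
      have h7 := hc 1 (k - 1) (by omega)
      have h8 : 1 + (k - 1) = k := by omega
      rwa [h8] at h7
    have c3 : V 1 * V 0 = V 0 * V 1 := by
      have h7 := hc 0 1 (by omega)
      rwa [zero_add] at h7
    have h9 : V k * (V (k + 1) * V 0 * V 1) = V k * (V 0 * V (k + 1) * V 1) := by
      calc V k * (V (k + 1) * V 0 * V 1) = V k * V (k + 1) * (V 0 * V 1) := by group
        _ = V (k + 1) * (V k * V 1) * V 0 := by rw [← c1, ← c3]; group
        _ = V (k + 1) * V 1 * (V k * V 0) := by rw [c2]; group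
        _ = V k * V 0 * (V (k + 1) * V 1) := h6
        _ = _ := by group
    have h10 := mul_right_cancel (mul_left_cancel h9)
    rw [hV0] at h10
    exact h10

/-- the commutators of powers -/
theorem Law1.powl (L : Law1 C) {y z : G} (hy : y ∈ C)
    (h : (y⁻¹ * z⁻¹ * y * z) * (y⁻¹ * z⁻¹ * y * z) = 1) (i : ℕ) :
    ((y ^ i)⁻¹ * z⁻¹ * y ^ i * z) * ((y ^ i)⁻¹ * z⁻¹ * y ^ i * z) = 1 := by
  set c := y⁻¹ * z⁻¹ * y * z with hc
  have hcE : c ∈ E C y := by
    refine ⟨h, ?_⟩
    have : y * c = cj z y := by rw [hc]; unfold cj; group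
    rw [this]
    exact L.conj y hy z
  have hcomm : ∀ k m, cj (y ^ k) c * cj (y ^ m) c = cj (y ^ m) c * cj (y ^ k) c := by
    have key : ∀ k m, m ≤ k → cj (y ^ k) c * cj (y ^ m) c = cj (y ^ m) c * cj (y ^ k) c := by
      intro k m hm
      have h1 : cj (y ^ k) c = cj (y ^ m) (cj (y ^ (k - m)) c) := by
        rw [cj_cj, ← pow_add]
        congr 2
        omega
      rw [h1, ← cj_mul, ← cj_mul, L.all hy (k - m) (k - m) le_rfl c hcE]
    intro k m
    rcases le_total m k with h1 | h1
    · exact key k m h1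
    · exact (key m k h1).symm
  have main : ∀ i : ℕ, ((y ^ i)⁻¹ * z⁻¹ * y ^ i * z) * ((y ^ i)⁻¹ * z⁻¹ * y ^ i * z) = 1 ∧
      ∀ m, cj (y ^ m) c * ((y ^ i)⁻¹ * z⁻¹ * y ^ i * z) =
        ((y ^ i)⁻¹ * z⁻¹ * y ^ i * z) * cj (y ^ m) c := by
    intro i
    induction i with
    | zero =>
      refine ⟨by simp, fun m => by simp⟩
    | succ i ih =>
      have e : (y ^ (i + 1))⁻¹ * z⁻¹ * y ^ (i + 1) * z =
          cj (y ^ i) c * ((y ^ i)⁻¹ * z⁻¹ * y ^ i * z) := by
        rw [hc, pow_succ']
        unfold cj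
        group
      rw [e]
      refine ⟨?_, fun m => ?_⟩
      · have h1 : cj (y ^ i) c * cj (y ^ i) c = 1 := by rw [← cj_mul, h, cj_one]
        calc _ = cj (y ^ i) c * (((y ^ i)⁻¹ * z⁻¹ * y ^ i * z) * cj (y ^ i) c) *
              ((y ^ i)⁻¹ * z⁻¹ * y ^ i * z) := by group
          _ = (cj (y ^ i) c * cj (y ^ i) c) * (((y ^ i)⁻¹ * z⁻¹ * y ^ i * z) *
              ((y ^ i)⁻¹ * z⁻¹ * y ^ i * z)) := by rw [← ih.2 i]; group
          _ = 1 := by rw [h1, ih.1, one_mul]
      · have h2 := ih.2 m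
        set W := (y ^ i)⁻¹ * z⁻¹ * y ^ i * z
        calc cj (y ^ m) c * (cj (y ^ i) c * W) = (cj (y ^ m) c * cj (y ^ i) c) * W :=
              (mul_assoc _ _ _).symm
          _ = cj (y ^ i) c * (cj (y ^ m) c * W) := by rw [hcomm m i, mul_assoc]
          _ = cj (y ^ i) c * (W * cj (y ^ m) c) := by rw [h2]
          _ = _ := (mul_assoc _ _ _).symm
  exact (main i).1

theorem sq_swap {y z : G} (h : (y⁻¹ * z⁻¹ * y * z) * (y⁻¹ * z⁻¹ * y * z) = 1) :
    (z⁻¹ * y⁻¹ * z * y) * (z⁻¹ * y⁻¹ * z * y) = 1 := by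
  have h1 : z⁻¹ * y⁻¹ * z * y = (y⁻¹ * z⁻¹ * y * z)⁻¹ := by group
  rw [h1, ← mul_inv_rev, h, inv_one]

theorem Law1.pows (L : Law1 C) {y z : G} (hy : y ∈ C) (hz : z ∈ C) (i j : ℕ) :
    ((y ^ i)⁻¹ * (z ^ j)⁻¹ * y ^ i * z ^ j) * ((y ^ i)⁻¹ * (z ^ j)⁻¹ * y ^ i * z ^ j) = 1 := by
  have h1 := L.powl hz (sq_swap (L.comm y hy z hz)) j
  exact L.powl hy (sq_swap h1) i

/-- the conjugates of `x` -/
def Cx (x : G) : Set G := {y | ∃ g : G, y = cj g x}

theorem sq_conj {y z : G} : (y⁻¹ * z⁻¹ * y * z) * (y⁻¹ * z⁻¹ * y * z) =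
    cj (z * y) (⁅y, z⁆ ^ 2) := by
  rw [cj_pow, pow_two]
  have h : cj (z * y) ⁅y, z⁆ = y⁻¹ * z⁻¹ * y * z := by
    rw [commutatorElement_def]
    unfold cj
    group
  rw [h]

theorem law_Cx {x : G} (h : ∀ g : G, ⁅x, g⁻¹ * x * g⁆ ^ 2 = 1) : Law1 (Cx x) := by
  refine ⟨?_, ?_⟩
  · rintro _ ⟨k, rfl⟩ g
    exact ⟨k * g, cj_cj k g x⟩
  · rintro _ ⟨k, rfl⟩ _ ⟨l, rfl⟩
    rw [sq_conj]
    have h1 := h (l * k⁻¹)
    have h2 : ⁅cj k x, cj l x⁆ = cj k ⁅x, (l * k⁻¹)⁻¹ * x * (l * k⁻¹)⁆ := by
      rw [commutatorElement_def, commutatorElement_def]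
      unfold cj
      group
    rw [h2, ← cj_pow, h1, cj_one, cj_one]

/-- it is enough to consider the commutators of `x` and its conjugates -/
theorem Small_of {x : G} (h : ∀ g : G, ⁅x, g⁻¹ * x * g⁆ ^ 2 = 1) : Small x := by
  intro g i j
  have h1 := (law_Cx h).pows (y := x) (z := cj g x) ⟨1, (one_cj x).symm⟩ ⟨g, rfl⟩ i j
  rw [sq_conj, ← cj_pow] at h1
  have h2 : ∀ w t : G, cj w t = 1 → t = 1 := by
    intro w t ht
    have h3 : t = w * cj w t * w⁻¹ := by unfold cj; group
    rw [h3, ht]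
    group
  exact h2 _ _ h1

/-! ### odd order -/

theorem main_odd (n : ℕ) : ∀ (G : Type u) [Group G] (x : G), Odd n → x ^ n = 1 → Small x →
    LF (Subgroup.normalClosure {x}) := by
  induction n using Nat.strong_induction_on with
  | _ n ih =>
    intro G _ x hn hx hS
    rcases Nat.lt_or_ge 1 n with h1 | h1
    · obtain ⟨q, hq⟩ := hn
      have hp : (Nat.minFac n).Prime := Nat.minFac_prime (by omega)
      obtain ⟨m, hm⟩ := Nat.minFac_dvd n
      have hp2 : Nat.minFac n ≠ 2 := by
        intro h2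
        have : 2 ∣ n := h2 ▸ Nat.minFac_dvd n
        omega
      have hm0 : m ≠ 0 := by
        rintro rfl
        omega
      have hmn : m < n := by
        rw [hm]
        exact lt_mul_left (Nat.pos_of_ne_zero hm0) hp.one_lt
      have hmo : Odd m := by
        rcases Nat.even_or_odd m with h2 | h2
        · exfalso
          have h3 : Even n := by rw [hm]; exact h2.mul_left _
          have h4 : Odd n := ⟨q, hq⟩
          exact (Nat.not_even_iff_odd.2 h4) h3
        · exact h2
      have hz : (x ^ m) ^ Nat.minFac n = 1 := by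
        rw [← pow_mul, mul_comm, ← hm, hx]
      have hN := (main_prime hp hp2 hz (Small_pow hS m)).1
      have hsurj := QuotientGroup.mk'_surjective (Subgroup.normalClosure {x ^ m})
      refine LF_ext (QuotientGroup.mk' (Subgroup.normalClosure {x ^ m})) ?_ ?_
      · rw [Subgroup.map_normalClosure _ _ hsurj, Set.image_singleton]
        refine ih m hmn _ _ hmo ?_ (Small_map _ hsurj hS)
        rw [← map_pow]
        exact (QuotientGroup.eq_one_iff _).2
          (Subgroup.subset_normalClosure (Set.mem_singleton _))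
      · rw [QuotientGroup.ker_mk']
        exact hN
    · have hn1 : n = 1 := by
        obtain ⟨q, hq⟩ := hn
        omega
      rw [hn1, pow_one] at hx
      have h2 : Subgroup.normalClosure {x} = ⊥ := by
        rw [hx, ← le_bot_iff]
        apply Subgroup.normalClosure_le_normal
        rintro _ rfl
        exact Subgroup.one_mem _
      rw [h2]
      exact LF_bot

/-- groups of exponent `q m`, `m` odd, where the groups of exponent `q` are locally finite -/
theorem main_exp {q m : ℕ} (hm : Odd m)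
    (hq : ∀ (Q : Type u) [Group Q], (∀ x : Q, x ^ q = 1) → LF (⊤ : Subgroup Q))
    (G : Type u) [Group G] (hG : ∀ g : G, g ^ (q * m) = 1)
    (hS : ∀ x : G, x ^ m = 1 → Small x) : LF (⊤ : Subgroup G) := by
  let T : Subgroup G := ⨆ x : {x : G // x ^ m = 1}, Subgroup.normalClosure {(x : G)}
  have hn : ∀ x : {x : G // x ^ m = 1}, (Subgroup.normalClosure {(x : G)}).Normal := fun _ =>
    Subgroup.normalClosure_normal
  have hT : LF T := LF_iSup _ hn fun x => main_odd m G x hm x.2 (hS x x.2)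
  have hTn : T.Normal := Subgroup.iSup_normal _
  refine LF_ext (QuotientGroup.mk' T) ?_ ?_
  · rw [← MonoidHom.range_eq_map, QuotientGroup.range_mk']
    refine hq _ ?_
    intro y
    obtain ⟨g, rfl⟩ := QuotientGroup.mk'_surjective T y
    rw [← map_pow]
    refine (QuotientGroup.eq_one_iff _).2 ?_
    have h1 : (g ^ q) ^ m = 1 := by rw [← pow_mul]; exact hG g
    exact (le_iSup (fun x : {x : G // x ^ m = 1} => Subgroup.normalClosure {(x : G)})
      ⟨g ^ q, h1⟩) (Subgroup.subset_normalClosure (Set.mem_singleton _))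
  · rw [QuotientGroup.ker_mk']
    exact hT

end Pool.Agent.V7H15.Inv
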